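import Mathlib
import Pool.Agent.MP_478eab_an.R.Dim
import Pool.Agent.MP_478eab_an.R.Hol
import Pool.Agent.MP_478eab_an.R.Kato
import Pool.Agent.MP_478eab_an.R.Lev
import Pool.Agent.MP_478eab_an.R.Log
import Pool.Agent.MP_478eab_an.R.Main
import Pool.Agent.MP_478eab_an.R.One
import Pool.Agent.MP_478eab_an.R.Pde
import Pool.Agent.MP_478eab_an.R.Poi1

/-! Every maximiser of the total population size is `κ` times the indicator of `{φ > 0}` for a
`C^{1,α}` function `φ` whose critical zeros form a set of Hausdorff dimension at most `n - 2`. -/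

namespace Pool.Agent.Results.MP_478eab_an.FreeBoundary

open MeasureTheory Set Pool.Agent.MP_478eab_an.V

/-- `m` is admissible and its total population is at least that of every admissible competitor. -/
def IsMaximiser {n : ℕ} (κ m₀ μ : ℝ) (m : (Fin n → ℝ) → ℝ) : Prop :=
  Adm κ m₀ m ∧ ∃ θ, IsSol μ m θ ∧
    ∀ m' θ', Adm κ m₀ m' → IsSol μ m' θ' → ∫ x in cube n, θ' x ≤ ∫ x in cube n, θ x

open Pool.Agent.MP_478eab_an.P Pool.Agent.MP_478eab_an.R in
theorem result : ∀ n : ℕ, 2 ≤ n → ∀ κ m₀ μ : ℝ, 0 < m₀ → m₀ < κ → 0 < μ →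
    ∀ m : (Fin n → ℝ) → ℝ, IsMaximiser κ m₀ μ m →
      ∃ φ : (Fin n → ℝ) → ℝ, ContDiff ℝ 1 φ ∧
        (∀ α : ℝ, 0 < α → α < 1 → ∃ C : ℝ, ∀ x y,
          ‖fderiv ℝ φ x - fderiv ℝ φ y‖ ≤ C * ‖x - y‖ ^ α) ∧
        (∀ᵐ x ∂volume.restrict (cube n), m x = {y | 0 < φ y}.indicator (fun _ => κ) x) ∧
        dimH {x | x ∈ cube n ∧ φ x = 0 ∧ fderiv ℝ φ x = 0} ≤ ((n - 2 : ℕ) : ENNReal) := by
  rintro n hn κ m₀ μ h0 h1 hμ m ⟨ad, θ, hs, mx⟩
  have κ0 := h0.trans h1
  have k0 := div_pos κ0 hμ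
  obtain ⟨M, R, e⟩ := al_res κ0 hμ ad
  have iM : μ * ∫ x in cube n, M x = m₀ := by
    rw [← integral_const_mul, ← ad.2.2]; exact (integral_congr_ae e).symm
  obtain ⟨φ, cφ, hol, bb, dm⟩ := regMain hn (pdeG hn (holS hn) katoS nashS) levS
    (oneS hn (logS hn)) (res2S hn (resS hn poi1S)) (dimS hn) (κ / μ) M _ k0 R
    ((mul_pos_iff_of_pos_left hμ).1 (iM ▸ h0)) ((lt_div_iff₀' hμ).2 (iM ▸ h1)) (al_ws hμ hs e)
    (fun x hx => mul_pos (inv_pos.2 hμ) (hs.2.1 x hx)) fun M' θ' R' i w p => by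
      have := mx (fun x => μ * M' x) _ ⟨(measurable_const.mul R'.meas).aemeasurable,
        Filter.Eventually.of_forall
        fun x => ⟨mul_nonneg hμ.le (R'.bd x).1, (le_div_iff₀' hμ).1 (R'.bd x).2⟩,
        by rw [integral_const_mul, i, iM]⟩ (al_sol hμ w fun x _ => p x)
      rw [integral_const_mul] at this
      rw [integral_const_mul]
      exact (le_inv_mul_iff₀ hμ).2 this
  refine ⟨φ, cφ, fun α a0 a1 => ?_, ?_, le_trans (dimH_mono fun x hx => ?_) dm⟩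
  · obtain ⟨C, C0, hC⟩ := hol α a0 a1
    refine ⟨n * C, fun x y => ContinuousLinearMap.opNorm_le_bound _ (by positivity) fun v => ?_⟩
    rw [sub_apply, fderiv_eq_sum, fderiv_eq_sum, ← Finset.sum_sub_distrib,
      Real.norm_eq_abs]
    refine (Finset.abs_sum_le_sum_abs _ _).trans ((Finset.sum_le_sum
      (g := fun _ => C * ‖x - y‖ ^ α * ‖v‖) fun i _ => ?_).trans_eq (by simp [mul_assoc]))
    rw [← mul_sub, abs_mul, mul_comm]
    exact mul_le_mul (hC x y i) (norm_le_pi_norm v i) (abs_nonneg _) (by positivity)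
  · filter_upwards [e, bb] with x e b
    rw [e, b]
    by_cases k : x ∈ {y | 0 < φ y}
    · rw [indicator_of_mem k, indicator_of_mem k, mul_div_cancel₀ _ hμ.ne']
    · rw [indicator_of_notMem k, indicator_of_notMem k, mul_zero]
  · exact ⟨hx.1, hx.2.1, fun i => by simp [pd, hx.2.2]⟩

end Pool.Agent.Results.MP_478eab_an.FreeBoundary
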