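import Mathlib
import Pool.Agent.MP_478eab_an.P.All

/-! In every dimension each maximiser of the total population size is `κ` times the indicator of
a set of perimeter at most `C (1 + √(κ / μ))`. -/

namespace Pool.Agent.Results.MP_478eab_an.PerimeterRate

open MeasureTheory Set Pool.Agent.MP_478eab_an.V

/-- `m` is admissible and its total population is at least that of every admissible competitor. -/
def IsMaximiser {n : ℕ} (κ m₀ μ : ℝ) (m : (Fin n → ℝ) → ℝ) : Prop :=
  Adm κ m₀ m ∧ ∃ θ, IsSol μ m θ ∧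
    ∀ m' θ', Adm κ m₀ m' → IsSol μ m' θ' → ∫ x in cube n, θ' x ≤ ∫ x in cube n, θ x

/-- The perimeter of `E` in the open cube is at most `P`: the integral over `E` of the divergence
of every `C¹` field of Euclidean length at most one that vanishes off the open cube is at most `P`. -/
def PerLe {n : ℕ} (E : Set (Fin n → ℝ)) (P : ℝ) : Prop :=
  ∀ X : (Fin n → ℝ) → Fin n → ℝ, ContDiff ℝ 1 X → (∀ x, ∑ i, X x i ^ 2 ≤ 1) →
    (∀ x, (¬ ∀ i, 0 < x i ∧ x i < 1) → X x = 0) → ∫ x in E, ∑ i, pd i (fun y => X y i) x ≤ P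

open Pool.Agent.MP_478eab_an.P in
theorem result : ∀ n : ℕ, 1 ≤ n → ∃ C : ℝ, ∀ κ m₀ μ : ℝ, 0 < m₀ → m₀ < κ → 0 < μ →
    ∀ m : (Fin n → ℝ) → ℝ, IsMaximiser κ m₀ μ m →
      ∃ E : Set (Fin n → ℝ), MeasurableSet E ∧ E ⊆ cube n ∧
        (∀ᵐ x ∂volume.restrict (cube n), m x = E.indicator (fun _ => κ) x) ∧
        PerLe E (C * (1 + √(κ / μ))) := by
  intro n hn
  obtain ⟨C, -, hC⟩ := mainAll hn
  refine ⟨C, ?_⟩
  rintro κ m₀ μ h0 h1 hμ m ⟨ad, θ, hs, mx⟩
  have κ0 := h0.trans h1
  have k0 := div_pos κ0 hμ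
  obtain ⟨M, R, e⟩ := al_res κ0 hμ ad
  have iM : μ * ∫ x in cube n, M x = m₀ := by
    rw [← integral_const_mul, ← ad.2.2]; exact (integral_congr_ae e).symm
  obtain ⟨bb, per⟩ := hC (κ / μ) M _ k0 R ((mul_pos_iff_of_pos_left hμ).1 (iM ▸ h0))
    (al_ws hμ hs e) (fun x hx => mul_pos (inv_pos.2 hμ) (hs.2.1 x hx)) fun M' θ' R' i w p => by
      have := mx (fun x => μ * M' x) _ ⟨(measurable_const.mul R'.meas).aemeasurable, Filter.Eventually.of_forall
        fun x => ⟨mul_nonneg hμ.le (R'.bd x).1, (le_div_iff₀' hμ).1 (R'.bd x).2⟩,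
        by rw [integral_const_mul, i, iM]⟩ (al_sol hμ w fun x _ => p x)
      rw [integral_const_mul] at this
      rw [integral_const_mul]
      exact (le_inv_mul_iff₀ hμ).2 this
  have mS : MeasurableSet (M ⁻¹' {κ / μ}) := R.meas (measurableSet_singleton _)
  have key : ∀ᵐ x ∂volume.restrict (cube n), ∀ c : ℝ,
      M x * c = κ / μ * (M ⁻¹' {κ / μ}).indicator (fun _ => c) x := bb.mono fun x hx c => by
    by_cases k : x ∈ M ⁻¹' {κ / μ}
    · rw [indicator_of_mem k, show M x = κ / μ from k]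
    · rw [indicator_of_notMem k, hx.resolve_right k, zero_mul, mul_zero]
  refine ⟨cube n ∩ M ⁻¹' {κ / μ}, cube_meas.inter mS, inter_subset_left, ?_,
    fun X h1 h2 h3 => ?_⟩
  · filter_upwards [e, bb, ae_restrict_mem cube_meas] with x e b hx
    by_cases k : x ∈ M ⁻¹' {κ / μ}
    · rw [indicator_of_mem (mem_inter hx k), e, show M x = κ / μ from k,
        mul_div_cancel₀ _ hμ.ne']
    · rw [indicator_of_notMem fun j => k j.2, e, b.resolve_right k, mul_zero]
  · have := per (fun i y => X y i) ⟨fun i => (contDiff_apply ℝ ℝ i).comp h1, h2,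
      fun x hx i => congrFun (h3 x fun j => hx fun i _ => j i) i⟩
    rw [integral_congr_ae (key.mono fun x hx => hx _), integral_const_mul] at this
    rw [← setIntegral_indicator mS]
    exact le_of_mul_le_mul_left this k0

end Pool.Agent.Results.MP_478eab_an.PerimeterRate
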