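import Mathlib
import Pool.Agent.MP_478eab_an.V.Two

/-! The order of the value of `(P_μ)` in dimension `n ≥ 2`. -/

namespace Pool.Agent.Results.MP_478eab_an.ValueOrder

open MeasureTheory Pool.Agent.MP_478eab_an.V

theorem result : ∀ n : ℕ, 2 ≤ n → ∃ c C : ℝ, 0 < c ∧ 0 < C ∧
    ∀ κ m₀ μ : ℝ, 0 < m₀ → 2 * m₀ ≤ κ → 0 < μ → ∃ V : ℝ,
      IsLUB {F : ℝ | ∃ m θ : (Fin n → ℝ) → ℝ,
        Adm κ m₀ m ∧ IsSol μ m θ ∧ F = ∫ x in cube n, θ x} V ∧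
      c * m₀ * (if μ ≤ c * m₀ * Psi n (κ / m₀) then Phi n (κ / m₀) else 1) ≤ V ∧
      V ≤ C * m₀ * (if C * m₀ * Psi n (κ / m₀) ≤ μ then 1 else Phi n (κ / m₀)) := by
  intro n hn
  obtain ⟨c, c0, hc⟩ := lower hn
  obtain ⟨C, C0, hC⟩ := upper hn
  refine ⟨min c 1, C, lt_min c0 one_pos, C0, fun κ m₀ μ h0 hκ hμ => ?_⟩
  have ht2 : 2 ≤ κ / m₀ := by rw [le_div_iff₀ h0]; exact hκ
  have hΦ := Phi_ge (n := n) ht2
  have hΨ : 0 ≤ Psi n (κ / m₀) := by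
    have := log_ge ht2
    unfold Psi
    split_ifs
    · linarith
    · positivity
  have hm : m₀ ∈ {F : ℝ | ∃ m θ : (Fin n → ℝ) → ℝ,
      Adm κ m₀ m ∧ IsSol μ m θ ∧ F = ∫ x in cube n, θ x} :=
    ⟨fun _ => m₀, fun _ => m₀, ⟨aemeasurable_const, Filter.Eventually.of_forall fun _ =>
      ⟨h0.le, by linarith⟩, int_cube_const _⟩, ⟨contDiff_const, fun _ _ => h0,
        fun ψ _ => by simp [pd_const]⟩, (int_cube_const _).symm⟩
  have hb : C * m₀ * (if C * m₀ * Psi n (κ / m₀) ≤ μ then 1 else Phi n (κ / m₀)) ∈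
      upperBounds {F : ℝ | ∃ m θ : (Fin n → ℝ) → ℝ,
        Adm κ m₀ m ∧ IsSol μ m θ ∧ F = ∫ x in cube n, θ x} := by
    rintro F ⟨m, θ, h1, h2, rfl⟩
    have := hC μ κ m₀ m θ hμ h0 hκ h1 h2
    split_ifs with h
    · rw [mul_one]; exact this.2 h
    · exact this.1
  obtain ⟨V, hV⟩ := Real.exists_isLUB ⟨_, hm⟩ ⟨_, hb⟩
  refine ⟨V, hV, ?_, hV.2 hb⟩
  split_ifs with h
  · obtain ⟨m, θ, h1, h2, h3⟩ := hc κ m₀ μ h0 hκ hμ (h.trans (mul_le_mul_of_nonneg_right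
      (mul_le_mul_of_nonneg_right (min_le_left _ _) h0.le) hΨ))
    exact le_trans (mul_le_mul_of_nonneg_right (mul_le_mul_of_nonneg_right (min_le_left _ _)
      h0.le) (by linarith)) (h3.trans (hV.1 ⟨m, θ, h1, h2, rfl⟩))
  · refine le_trans ?_ (hV.1 hm)
    rw [mul_one]
    exact mul_le_of_le_one_left h0.le (min_le_right _ _)

end Pool.Agent.Results.MP_478eab_an.ValueOrder
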